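import Pool.Agent.Helper36.RI.Goals

/-!
# Project RF, packet CON: the constraint equations on the frame bundle
-/

set_option linter.unusedSimpArgs false

namespace Pool.Agent.Helper79.RI

open Pool.Agent.Helper36.RI Pool.Agent.Helper73.RF

section

variable {T : ℝ} {F : FBD T} {PP : Fin 3 → Fin 3 → F.B}

/-- all rewriting rules in components -/
structure Rules (F : FBD T) (PP : Fin 3 → Fin 3 → F.B) : Prop where
  m10 : F.M 1 0 = F.M 0 1
  m20 : F.M 2 0 = F.M 0 2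
  m21 : F.M 2 1 = F.M 1 2
  p10 : PP 1 0 = PP 0 1
  p20 : PP 2 0 = PP 0 2
  p21 : PP 2 1 = PP 1 2
  h10 : ∀ f, F.H 1 (F.H 0 f) = F.H 0 (F.H 1 f)
    - (F.M 0 2 * F.V 0 f + F.M 1 2 * F.V 1 f + F.M 2 2 * F.V 2 f)
  h20 : ∀ f, F.H 2 (F.H 0 f) = F.H 0 (F.H 2 f)
    + (F.M 0 1 * F.V 0 f + F.M 1 1 * F.V 1 f + F.M 1 2 * F.V 2 f)
  h21 : ∀ f, F.H 2 (F.H 1 f) = F.H 1 (F.H 2 f)
    - (F.M 0 0 * F.V 0 f + F.M 0 1 * F.V 1 f + F.M 0 2 * F.V 2 f)
  v00 : ∀ f, F.V 0 (F.H 0 f) = F.H 0 (F.V 0 f)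
  v01 : ∀ f, F.V 0 (F.H 1 f) = F.H 1 (F.V 0 f) + F.H 2 f
  v02 : ∀ f, F.V 0 (F.H 2 f) = F.H 2 (F.V 0 f) - F.H 1 f
  v10 : ∀ f, F.V 1 (F.H 0 f) = F.H 0 (F.V 1 f) - F.H 2 f
  v11 : ∀ f, F.V 1 (F.H 1 f) = F.H 1 (F.V 1 f)
  v12 : ∀ f, F.V 1 (F.H 2 f) = F.H 2 (F.V 1 f) + F.H 0 f
  v20 : ∀ f, F.V 2 (F.H 0 f) = F.H 0 (F.V 2 f) + F.H 1 f
  v21 : ∀ f, F.V 2 (F.H 1 f) = F.H 1 (F.V 2 f) - F.H 0 f
  v22 : ∀ f, F.V 2 (F.H 2 f) = F.H 2 (F.V 2 f)
  p000 : F.V 0 (PP 0 0) = 0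
  p001 : F.V 0 (PP 0 1) = PP 0 2
  p002 : F.V 0 (PP 0 2) = - PP 0 1
  p011 : F.V 0 (PP 1 1) = PP 1 2 + PP 1 2
  p012 : F.V 0 (PP 1 2) = PP 2 2 - PP 1 1
  p022 : F.V 0 (PP 2 2) = - (PP 1 2 + PP 1 2)
  p100 : F.V 1 (PP 0 0) = - (PP 0 2 + PP 0 2)
  p101 : F.V 1 (PP 0 1) = - PP 1 2
  p102 : F.V 1 (PP 0 2) = PP 0 0 - PP 2 2
  p111 : F.V 1 (PP 1 1) = 0
  p112 : F.V 1 (PP 1 2) = PP 0 1
  p122 : F.V 1 (PP 2 2) = PP 0 2 + PP 0 2
  p200 : F.V 2 (PP 0 0) = PP 0 1 + PP 0 1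
  p201 : F.V 2 (PP 0 1) = PP 1 1 - PP 0 0
  p202 : F.V 2 (PP 0 2) = PP 1 2
  p211 : F.V 2 (PP 1 1) = - (PP 0 1 + PP 0 1)
  p212 : F.V 2 (PP 1 2) = - PP 0 2
  p222 : F.V 2 (PP 2 2) = 0
  b0 : F.H 2 (F.M 0 2) = - F.H 0 (F.M 0 0) - F.H 1 (F.M 0 1)
  b1 : F.H 2 (F.M 1 2) = - F.H 0 (F.M 0 1) - F.H 1 (F.M 1 1)
  b2 : F.H 2 (F.M 2 2) = - F.H 0 (F.M 0 2) - F.H 1 (F.M 1 2)

theorem rules (h : PH F PP) : Rules F PP := by
  have m10 : F.M 1 0 = F.M 0 1 := h.full.Msymm 1 0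
  have m20 : F.M 2 0 = F.M 0 2 := h.full.Msymm 2 0
  have m21 : F.M 2 1 = F.M 1 2 := h.full.Msymm 2 1
  have p10 : PP 1 0 = PP 0 1 := h.sym 1 0
  have p20 : PP 2 0 = PP 0 2 := h.sym 2 0
  have p21 : PP 2 1 = PP 1 2 := h.sym 2 1
  have HH := h.full.toBase.HH
  have VH := h.full.toBase.VH
  have ten := h.ten
  have bi := h.full.bianchi
  constructor
  · exact m10
  · exact m20
  · exact m21
  · exact p10
  · exact p20
  · exact p21
  · intro f
    have := HH 0 1 f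
    simp [eps, Fin.sum_univ_three, m20, m21] at this
    linear_combination -this
  · intro f
    have := HH 2 0 f
    simp [eps, Fin.sum_univ_three, m10] at this
    linear_combination this
  · intro f
    have := HH 1 2 f
    simp [eps, Fin.sum_univ_three] at this
    linear_combination -this
  · intro f
    have := VH 0 0 f
    simp [eps, Fin.sum_univ_three] at this
    linear_combination this
  · intro f
    have := VH 0 1 f
    simp [eps, Fin.sum_univ_three] at this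
    linear_combination this
  · intro f
    have := VH 0 2 f
    simp [eps, Fin.sum_univ_three] at this
    linear_combination this
  · intro f
    have := VH 1 0 f
    simp [eps, Fin.sum_univ_three] at this
    linear_combination this
  · intro f
    have := VH 1 1 f
    simp [eps, Fin.sum_univ_three] at this
    linear_combination this
  · intro f
    have := VH 1 2 f
    simp [eps, Fin.sum_univ_three] at this
    linear_combination this
  · intro f
    have := VH 2 0 f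
    simp [eps, Fin.sum_univ_three] at this
    linear_combination this
  · intro f
    have := VH 2 1 f
    simp [eps, Fin.sum_univ_three] at this
    linear_combination this
  · intro f
    have := VH 2 2 f
    simp [eps, Fin.sum_univ_three] at this
    linear_combination this
  · rw [ten]; simp [eps, Fin.sum_univ_three, p10, p20, p21]; try ring
  · rw [ten]; simp [eps, Fin.sum_univ_three, p10, p20, p21]; try ring
  · rw [ten]; simp [eps, Fin.sum_univ_three, p10, p20, p21]; try ring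
  · rw [ten]; simp [eps, Fin.sum_univ_three, p10, p20, p21]; try ring
  · rw [ten]; simp [eps, Fin.sum_univ_three, p10, p20, p21]; try ring
  · rw [ten]; simp [eps, Fin.sum_univ_three, p10, p20, p21]; try ring
  · rw [ten]; simp [eps, Fin.sum_univ_three, p10, p20, p21]; try ring
  · rw [ten]; simp [eps, Fin.sum_univ_three, p10, p20, p21]; try ring
  · rw [ten]; simp [eps, Fin.sum_univ_three, p10, p20, p21]; try ring
  · rw [ten]; simp [eps, Fin.sum_univ_three, p10, p20, p21]; try ring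
  · rw [ten]; simp [eps, Fin.sum_univ_three, p10, p20, p21]; try ring
  · rw [ten]; simp [eps, Fin.sum_univ_three, p10, p20, p21]; try ring
  · rw [ten]; simp [eps, Fin.sum_univ_three, p10, p20, p21]; try ring
  · rw [ten]; simp [eps, Fin.sum_univ_three, p10, p20, p21]; try ring
  · rw [ten]; simp [eps, Fin.sum_univ_three, p10, p20, p21]; try ring
  · rw [ten]; simp [eps, Fin.sum_univ_three, p10, p20, p21]; try ring
  · rw [ten]; simp [eps, Fin.sum_univ_three, p10, p20, p21]; try ring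
  · rw [ten]; simp [eps, Fin.sum_univ_three, p10, p20, p21]; try ring
  · have := bi 0
    simp [Fin.sum_univ_three, m10, m20] at this
    linear_combination this
  · have := bi 1
    simp [Fin.sum_univ_three, m21] at this
    linear_combination this
  · have := bi 2
    simp [Fin.sum_univ_three] at this
    linear_combination this

theorem claim3 (h : PH F PP) : ∀ k i j, F.V k (Nb F PP i j)
    = ∑ a, (eps k i a • Nb F PP a j + eps k j a • Nb F PP i a) := by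
  intro k i j
  simp only [Nb, map_sub, h.full.VM, h.ten, smul_sub, Finset.sum_add_distrib,
    Finset.sum_sub_distrib]
  ring

theorem claim4 (h : PH F PP) : ∀ k j, F.V k (Bb F PP j) = ∑ a, eps k j a • Bb F PP a := by
  obtain ⟨m10, m20, m21, p10, p20, p21, h10, h20, h21, v00, v01, v02, v10, v11, v12, v20, v21, v22,
    p000, p001, p002, p011, p012, p022, p100, p101, p102, p111, p112, p122, p200, p201, p202,
    p211, p212, p222, b0, b1, b2⟩ := rules h
  intro k j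
  fin_cases k <;> fin_cases j <;>
  · simp only [Bb, Fin.sum_univ_three, Fin.zero_eta, Fin.mk_one, Fin.reduceFinMk, eps,
      Matrix.cons_val_zero, Matrix.cons_val_one, Matrix.cons_val, Fin.isValue,
      p10, p20, p21, map_add, map_neg, map_sub,
      v00, v01, v02, v10, v11, v12, v20, v21, v22, p000, p001, p002, p011, p012, p022, p100, p101,
      p102, p111, p112, p122, p200, p201, p202, p211, p212, p222, map_zero, zero_smul, one_smul,
      neg_smul]
    ring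

theorem Scomp (h : PH F PP) :
    (F.S 0 0 = PP 1 1 + PP 2 2 ∧ F.S 1 1 = PP 0 0 + PP 2 2 ∧ F.S 2 2 = PP 0 0 + PP 1 1) ∧
    (F.S 0 1 = - PP 0 1 ∧ F.S 1 0 = - PP 0 1 ∧ F.S 0 2 = - PP 0 2 ∧ F.S 2 0 = - PP 0 2 ∧
      F.S 1 2 = - PP 1 2 ∧ F.S 2 1 = - PP 1 2) := by
  have p10 : PP 1 0 = PP 0 1 := h.sym 1 0
  have p20 : PP 2 0 = PP 0 2 := h.sym 2 0
  have p21 : PP 2 1 = PP 1 2 := h.sym 2 1
  refine ⟨⟨?_, ?_, ?_⟩, ?_, ?_, ?_, ?_, ?_, ?_⟩ <;> rw [h.S] <;>
    simp [Sf, trP, Fin.sum_univ_three, p10, p20, p21] <;> try ring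

theorem Ycomp (F : FBD T) (a : Fin 3) :
    F.Y a 0 = F.H 1 (F.S a 2) - F.H 2 (F.S a 1) ∧
    F.Y a 1 = F.H 2 (F.S a 0) - F.H 0 (F.S a 2) ∧
    F.Y a 2 = F.H 0 (F.S a 1) - F.H 1 (F.S a 0) := by
  refine ⟨?_, ?_, ?_⟩ <;> simp [FBD.Y, Fin.sum_univ_three, eps] <;> ring

theorem DMcomp (h : PH F PP) (j : Fin 3) :
    (F.D (F.M 0 j) = (F.S 0 0 + F.S 1 1 + F.S 2 2) * F.M 0 j
      - (F.S 0 0 * F.M 0 j + F.S 0 1 * F.M 1 j + F.S 0 2 * F.M 2 j)
      + (F.H 1 (F.Y 2 j) - F.H 2 (F.Y 1 j))) ∧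
    (F.D (F.M 1 j) = (F.S 0 0 + F.S 1 1 + F.S 2 2) * F.M 1 j
      - (F.S 1 0 * F.M 0 j + F.S 1 1 * F.M 1 j + F.S 1 2 * F.M 2 j)
      + (F.H 2 (F.Y 0 j) - F.H 0 (F.Y 2 j))) ∧
    (F.D (F.M 2 j) = (F.S 0 0 + F.S 1 1 + F.S 2 2) * F.M 2 j
      - (F.S 2 0 * F.M 0 j + F.S 2 1 * F.M 1 j + F.S 2 2 * F.M 2 j)
      + (F.H 0 (F.Y 1 j) - F.H 1 (F.Y 0 j))) := by
  refine ⟨?_, ?_, ?_⟩ <;> rw [h.full.DM] <;> simp [Fin.sum_univ_three, eps] <;> ring

theorem claim1 (h : PH F PP) : ∀ l j, F.D (Nb F PP l j) = - F.H l (Bb F PP j) - F.H j (Bb F PP l)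
    + (if l = j then ∑ a, F.H a (Bb F PP a) else 0)
    + (2 : ℝ) • ∑ c, (Nb F PP l c * PP c j + PP l c * Nb F PP c j)
    - (2 : ℝ) • (trP (Nb F PP) * PP l j)
    + (if l = j then trP (Nb F PP) * trP PP - ∑ c, ∑ d, Nb F PP c d * PP c d else 0) := by
  obtain ⟨m10, m20, m21, p10, p20, p21, h10, h20, h21, v00, v01, v02, v10, v11, v12, v20, v21, v22,
    p000, p001, p002, p011, p012, p022, p100, p101, p102, p111, p112, p122, p200, p201, p202,
    p211, p212, p222, b0, b1, b2⟩ := rules h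
  obtain ⟨⟨s00, s11, s22⟩, s01, s10, s02, s20, s12, s21⟩ := Scomp h
  have y0 := fun a => (Ycomp F a).1
  have y1 := fun a => (Ycomp F a).2.1
  have y2 := fun a => (Ycomp F a).2.2
  have d0 := fun j => (DMcomp h j).1
  have d1 := fun j => (DMcomp h j).2.1
  have d2 := fun j => (DMcomp h j).2.2
  have two : ∀ f : F.B, (2 : ℝ) • f = 2 * f := fun f => by
    rw [Algebra.smul_def, map_ofNat]
  have four : ∀ f : F.B, (4 : ℝ) • f = 4 * f := fun f => by
    rw [Algebra.smul_def, map_ofNat]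
  intro l j
  fin_cases l <;> fin_cases j <;>
  · simp only [Nb, Bb, Fin.sum_univ_three, Fin.zero_eta, Fin.mk_one, Fin.reduceFinMk,
      Fin.isValue, if_true, if_false, Fin.reduceEq, reduceIte, two, four,
      map_sub, d0, d1, d2, h.D, y0, y1, y2, s00, s11, s22, s01, s10, s02, s20, s12, s21, FBD.Lap,
      QP, trP, m10, m20, m21, p10, p20, p21, map_add, map_neg, Derivation.leibniz, smul_eq_mul,
      h10, h20, h21,
      v00, v01, v02, v10, v11, v12, v20, v21, v22, p000, p001, p002, p011, p012, p022, p100, p101,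
      p102, p111, p112, p122, p200, p201, p202, p211, p212, p222, map_zero, b0, b1, b2]
    ring

theorem claim2 (h : PH F PP) : ∀ j, F.D (Bb F PP j) = F.Lap (Bb F PP j)
    + ∑ i, PP j i * Bb F PP i
    + (2 : ℝ) • (trP PP * Bb F PP j) + (2 : ℝ) • Zb F PP j + trP (Nb F PP) * Bb F PP j
    - ∑ k, ∑ a, Nb F PP k a * F.H a (PP k j)
    + (2 : ℝ) • ∑ b, F.H b (trP (Nb F PP)) * PP b j
    + ∑ a, ∑ b, F.H j (Nb F PP a b) * PP a b
    - ∑ b, ∑ i, F.H b (Nb F PP j i) * PP i b - F.H j (trP (Nb F PP)) * trP PP := by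
  obtain ⟨m10, m20, m21, p10, p20, p21, h10, h20, h21, v00, v01, v02, v10, v11, v12, v20, v21, v22,
    p000, p001, p002, p011, p012, p022, p100, p101, p102, p111, p112, p122, p200, p201, p202,
    p211, p212, p222, b0, b1, b2⟩ := rules h
  obtain ⟨⟨s00, s11, s22⟩, s01, s10, s02, s20, s12, s21⟩ := Scomp h
  have y0 := fun a => (Ycomp F a).1
  have y1 := fun a => (Ycomp F a).2.1
  have y2 := fun a => (Ycomp F a).2.2
  have two : ∀ f : F.B, (2 : ℝ) • f = f + f := fun f => two_smul ℝ f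
  have four : ∀ f : F.B, (4 : ℝ) • f = (f + f) + (f + f) := fun f => by
    rw [← two_smul ℝ f, ← two_smul ℝ, smul_smul]; norm_num
  intro j
  fin_cases j <;>
  · simp only [Nb, Bb, Zb, Fin.sum_univ_three, Fin.zero_eta, Fin.mk_one, Fin.reduceFinMk,
      Fin.isValue, if_true, if_false, Fin.reduceEq, reduceIte, two, four, pow_two,
      map_sub, h.full.DHY, h.D, y0, y1, y2, s00, s11, s22, s01, s10, s02, s20, s12, s21, FBD.Lap,
      QP, trP, m10, m20, m21, p10, p20, p21, map_add, map_neg, Derivation.leibniz, smul_eq_mul,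
      h10, h20, h21,
      v00, v01, v02, v10, v11, v12, v20, v21, v22, p000, p001, p002, p011, p012, p022, p100, p101,
      p102, p111, p112, p122, p200, p201, p202, p211, p212, p222, map_zero, b0, b1, b2]
    ring

theorem con : G_CON := fun _ _ _ h => ⟨claim1 h, claim2 h, claim3 h, claim4 h⟩

end

end Pool.Agent.Helper79.RI
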